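import Pool.Agent.W2helper75.FD.Stm

/-!
# Project FD, piece WLK: `hit` is the hitting probability, and long lived particles hit.
-/

set_option autoImplicit false

open MeasureTheory ProbabilityTheory Filter Topology
open scoped ENNReal NNReal

namespace Pool.Agent.W2helper19.FD

open Pool.Agent.W2helper75.FD

/-- put `s` in front of `c` -/
def cns {S : Type} (p : S × (ℕ → S)) : ℕ → S := fun i => Nat.casesOn i p.1 p.2

@[simp] lemma cns_zero {S : Type} (p : S × (ℕ → S)) : cns p 0 = p.1 := rfl
@[simp] lemma cns_succ {S : Type} (p : S × (ℕ → S)) (i : ℕ) : cns p (i + 1) = p.2 i := rfl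

lemma measurable_cns {S : Type} [MeasurableSpace S] :
    Measurable (cns : S × (ℕ → S) → ℕ → S) := by
  refine measurable_pi_lambda _ fun i => ?_
  cases i with
  | zero => exact measurable_fst
  | succ i => exact (measurable_pi_apply i).comp measurable_snd

/-- splitting off the first coordinate of an i.i.d. sequence -/
lemma map_cns {S : Type} [MeasurableSpace S] (μ : Measure S) [IsProbabilityMeasure μ] :
    (μ.prod (Measure.infinitePi fun _ : ℕ => μ)).map cns = Measure.infinitePi fun _ : ℕ => μ := by
  classical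
  apply Measure.eq_infinitePi
  intro F t ht
  obtain ⟨M, hM⟩ : ∃ M, ∀ i ∈ F, i < M + 1 := by
    obtain ⟨M, hM⟩ := F.exists_nat_subset_range
    exact ⟨M, fun i hi => by have := Finset.mem_range.1 (hM hi); omega⟩
  let u : ℕ → Set S := fun i => if i ∈ F then t i else Set.univ
  have hu : ∀ i, MeasurableSet (u i) := by
    intro i
    simp only [u]
    split_ifs
    · exact ht i
    · exact MeasurableSet.univ
  have hset : cns ⁻¹' (Set.pi (F : Set ℕ) t) =
      u 0 ×ˢ Set.pi ((Finset.range M : Finset ℕ) : Set ℕ) (fun i => u (i + 1)) := by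
    ext p
    simp only [Set.mem_preimage, Set.mem_pi, Finset.mem_coe, Set.mem_prod, Finset.mem_range]
    constructor
    · intro h
      refine ⟨?_, ?_⟩
      · simp only [u]
        split_ifs with h0
        · exact h 0 h0
        · trivial
      · intro i _
        simp only [u]
        split_ifs with h0
        · exact h (i + 1) h0
        · trivial
    · rintro ⟨h0, h1⟩ i hi
      cases i with
      | zero => simpa [u, hi] using h0
      | succ i =>
        have := h1 i (by have := hM _ hi; omega)
        simpa [u, hi] using this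
  rw [Measure.map_apply measurable_cns (MeasurableSet.pi F.countable_toSet fun i _ => ht i), hset,
    Measure.prod_prod, Measure.infinitePi_pi _ (fun i _ => hu (i + 1))]
  have h1 : ∏ i ∈ F, μ (t i) = ∏ i ∈ Finset.range (M + 1), μ (u i) := by
    have h2 : F ⊆ Finset.range (M + 1) := fun i hi => Finset.mem_range.2 (hM i hi)
    rw [← Finset.prod_subset h2 (f := fun i => μ (u i))]
    · refine Finset.prod_congr rfl fun i hi => ?_
      simp [u, hi]
    · intro i _ hi
      simp [u, hi]
  rw [h1, Finset.prod_range_succ', mul_comm]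

lemma hit_nonneg_le {X S : Type} [Fintype S] [Nonempty S] (mx : X → S → X) (y : X) (n : ℕ) :
    ∀ x, 0 ≤ hit mx y n x ∧ hit mx y n x ≤ 1 := by
  induction n with
  | zero =>
    intro x
    simp only [hit]
    split_ifs <;> norm_num
  | succ n ih =>
    intro x
    simp only [hit]
    have hc : (0 : ℝ) < Fintype.card S := by exact_mod_cast Fintype.card_pos
    split_ifs
    · norm_num
    · refine ⟨div_nonneg (Finset.sum_nonneg fun s _ => (ih _).1) hc.le, ?_⟩
      rw [div_le_one hc]
      calc ∑ s, hit mx y n (mx x s) ≤ ∑ _s : S, (1 : ℝ) := Finset.sum_le_sum fun s _ => (ih _).2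
        _ = Fintype.card S := by simp

lemma measurableSet_pth {X S : Type} [Fintype S] [MeasurableSpace S] [DiscreteMeasurableSpace S]
    (mx : X → S → X) (x : X) (k : ℕ) : ∀ A : Set X, MeasurableSet {c : ℕ → S | pth mx x c k ∈ A} := by
  induction k with
  | zero =>
    intro A
    simp only [pth]
    exact MeasurableSet.const _
  | succ k ih =>
    intro A
    have : {c : ℕ → S | pth mx x c (k + 1) ∈ A} =
        ⋃ s : S, ({c : ℕ → S | c k = s} ∩ {c | pth mx x c k ∈ {z | mx z s ∈ A}}) := by
      ext c
      simp [pth]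
    rw [this]
    refine MeasurableSet.iUnion fun s => MeasurableSet.inter ?_ (ih _)
    exact (measurable_pi_apply (X := fun _ : ℕ => S) k) (MeasurableSet.of_discrete (s := ({s} : Set S)))

/-- the walk does not hit `y` in at most `n` steps -/
def Miss {X S : Type} (mx : X → S → X) (y : X) (n : ℕ) (x : X) : Set (ℕ → S) :=
  {c | ∀ k ≤ n, pth mx x c k ≠ y}

lemma measurableSet_miss {X S : Type} [Fintype S] [MeasurableSpace S] [DiscreteMeasurableSpace S]
    (mx : X → S → X) (y : X) (n : ℕ) (x : X) : MeasurableSet (Miss mx y n x) := by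
  have : Miss mx y n x = ⋂ k : ℕ, ⋂ _ : k ≤ n, {c : ℕ → S | pth mx x c k ∈ ({y}ᶜ : Set X)} := by
    ext c
    simp [Miss]
  rw [this]
  exact MeasurableSet.iInter fun k => MeasurableSet.iInter fun _ => measurableSet_pth mx x k _

lemma pth_cns {X S : Type} (mx : X → S → X) (x : X) (p : S × (ℕ → S)) (k : ℕ) :
    pth mx x (cns p) (k + 1) = pth mx (mx x p.1) p.2 k := by
  induction k with
  | zero => rfl
  | succ k ih =>
    rw [show pth mx x (cns p) (k + 1 + 1) = mx (pth mx x (cns p) (k + 1)) (cns p (k + 1)) from rfl,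
      ih]
    rfl

lemma miss_le {X S : Type} [Fintype S] [Nonempty S] [MeasurableSpace S]
    [DiscreteMeasurableSpace S] (mx : X → S → X) (y : X) (n : ℕ) :
    ∀ x, mlaw S (Miss mx y n x) ≤ ENNReal.ofReal (1 - hit mx y n x) := by
  induction n with
  | zero =>
    intro x
    simp only [hit]
    split_ifs with h
    · have : Miss mx y 0 x = (∅ : Set (ℕ → S)) := by
        ext c
        simp only [Miss, Set.mem_ofPred_eq, Set.mem_empty_iff_false, iff_false]
        intro h1
        exact h1 0 le_rfl h
      rw [this]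
      simp
    · simpa using prob_le_one
  | succ n ih =>
    intro x
    simp only [hit]
    split_ifs with h
    · have : Miss mx y (n + 1) x = (∅ : Set (ℕ → S)) := by
        ext c
        simp only [Miss, Set.mem_ofPred_eq, Set.mem_empty_iff_false, iff_false]
        intro h1
        exact h1 0 (Nat.zero_le _) h
      rw [this]
      simp
    · have hc : (0 : ℝ) < Fintype.card S := by exact_mod_cast Fintype.card_pos
      have hpre : cns ⁻¹' (Miss mx y (n + 1) x) =
          {p : S × (ℕ → S) | p.2 ∈ Miss mx y n (mx x p.1)} := by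
        ext p
        simp only [Miss, Set.mem_preimage, Set.mem_ofPred_eq]
        constructor
        · intro h1 k hk
          rw [← pth_cns]
          exact h1 (k + 1) (by omega)
        · intro h1 k hk
          cases k with
          | zero => exact h
          | succ k =>
            rw [pth_cns]
            exact h1 k (by omega)
      have hmap : mlaw S = ((unif S).prod (mlaw S)).map cns := (map_cns (unif S)).symm
      have hmeas : MeasurableSet (cns ⁻¹' (Miss mx y (n + 1) x)) :=
        measurable_cns (measurableSet_miss mx y (n + 1) x)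
      have h2 : mlaw S (Miss mx y (n + 1) x) =
          ∫⁻ s, mlaw S (Miss mx y n (mx x s)) ∂(unif S) := by
        conv_lhs => rw [hmap]
        rw [Measure.map_apply measurable_cns (measurableSet_miss mx y (n + 1) x),
          Measure.prod_apply hmeas]
        refine lintegral_congr fun s => ?_
        rw [hpre]
        rfl
      rw [h2, lintegral_fintype]
      have hun : ∀ s : S, unif S {s} = ENNReal.ofReal (1 / (Fintype.card S : ℝ)) := by
        intro s
        unfold unif
        rw [PMF.toMeasure_apply_singleton _ _ (MeasurableSet.of_discrete),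
          PMF.uniformOfFintype_apply, one_div, ENNReal.ofReal_inv_of_pos hc,
          ENNReal.ofReal_natCast]
      calc ∑ s, mlaw S (Miss mx y n (mx x s)) * unif S {s}
          ≤ ∑ s, ENNReal.ofReal ((1 - hit mx y n (mx x s)) * (1 / (Fintype.card S : ℝ))) := by
            refine Finset.sum_le_sum fun s _ => ?_
            rw [ENNReal.ofReal_mul (by linarith [(hit_nonneg_le mx y n (mx x s)).2]), hun s]
            exact mul_le_mul_left (ih _) _
        _ = ENNReal.ofReal (∑ s, (1 - hit mx y n (mx x s)) * (1 / (Fintype.card S : ℝ))) := by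
            rw [ENNReal.ofReal_sum_of_nonneg]
            intro s _
            exact mul_nonneg (by linarith [(hit_nonneg_le mx y n (mx x s)).2])
              (by positivity)
        _ = ENNReal.ofReal (1 - (∑ s, hit mx y n (mx x s)) / (Fintype.card S : ℝ)) := by
            congr 1
            rw [← Finset.sum_mul, Finset.sum_sub_distrib]
            simp only [Finset.sum_const, Finset.card_univ, nsmul_eq_mul, mul_one]
            field_simp

/-- some of the first `n` waiting times are too long -/
def Late (n : ℕ) (t : ℝ) : Set (ℕ → ℝ) := {w | ∃ k ≤ n, t < ∑ j ∈ Finset.range k, w j}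

lemma measurableSet_late (n : ℕ) (t : ℝ) : MeasurableSet (Late n t) := by
  have : Late n t = ⋃ k : ℕ, ⋃ _ : k ≤ n, {w : ℕ → ℝ | t < ∑ j ∈ Finset.range k, w j} := by
    ext w
    simp [Late]
  rw [this]
  refine MeasurableSet.iUnion fun k => MeasurableSet.iUnion fun _ => ?_
  exact measurableSet_lt measurable_const
    (Finset.measurable_sum _ fun j _ => measurable_pi_apply j)

lemma late_anti (n : ℕ) {t t' : ℝ} (h : t ≤ t') : Late n t' ⊆ Late n t := by
  rintro w ⟨k, hk, hw⟩
  exact ⟨k, hk, lt_of_le_of_lt h hw⟩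

lemma late_small (n : ℕ) (δ : ℝ≥0∞) (hδ : 0 < δ) : ∃ t0 : ℝ, tlaw (Late n t0) ≤ δ := by
  have h1 : Tendsto (fun m : ℕ => tlaw (Late n (m : ℝ))) atTop
      (𝓝 (tlaw (⋂ m : ℕ, Late n (m : ℝ)))) := by
    apply tendsto_measure_iInter_atTop
    · intro m
      exact (measurableSet_late n m).nullMeasurableSet
    · intro m m' hm
      exact late_anti n (by exact_mod_cast hm)
    · exact ⟨0, measure_ne_top _ _⟩
  have h2 : (⋂ m : ℕ, Late n (m : ℝ)) = ∅ := by
    ext w
    simp only [Set.mem_iInter, Set.mem_empty_iff_false, iff_false, not_forall]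
    obtain ⟨m, hm⟩ := exists_nat_ge (∑ k ∈ Finset.range (n + 1), |∑ j ∈ Finset.range k, w j|)
    refine ⟨m, ?_⟩
    rintro ⟨k, hk, hw⟩
    have h3 : |∑ j ∈ Finset.range k, w j| ≤
        ∑ k ∈ Finset.range (n + 1), |∑ j ∈ Finset.range k, w j| :=
      Finset.single_le_sum (f := fun k => |∑ j ∈ Finset.range k, w j|)
        (fun _ _ => abs_nonneg _) (Finset.mem_range.2 (by omega))
    have h4 := le_abs_self (∑ j ∈ Finset.range k, w j)
    linarith
  rw [h2, measure_empty] at h1
  obtain ⟨m, hm⟩ := (h1.eventually (ge_mem_nhds hδ)).exists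
  exact ⟨m, hm⟩

theorem wlk : P_WLK := by
  intro X S _ _ _ _ mx x y hlim δ hδ
  -- half of `δ`, real version
  obtain ⟨ε, hε, hεδ⟩ : ∃ ε : ℝ, 0 < ε ∧ ENNReal.ofReal ε ≤ δ / 2 := by
    have h1 : (0 : ℝ≥0∞) < min (δ / 2) 1 := lt_min (ENNReal.half_pos hδ.ne') one_pos
    have h2 : min (δ / 2) 1 ≠ ∞ := ne_top_of_le_ne_top ENNReal.one_ne_top (min_le_right _ _)
    refine ⟨(min (δ / 2) 1).toReal, ENNReal.toReal_pos h1.ne' h2, ?_⟩
    rw [ENNReal.ofReal_toReal h2]
    exact min_le_left _ _
  have h1 : ∀ᶠ n in atTop, 1 - ε < hit mx y n x :=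
    hlim.eventually (lt_mem_nhds (by linarith))
  obtain ⟨n, hn⟩ := h1.exists
  obtain ⟨t0, ht0⟩ := late_small n (δ / 2) (ENNReal.half_pos hδ.ne')
  refine ⟨t0, fun t ht => ?_⟩
  have hsub : {c : Par S | ¬ Hits mx t x c y} ⊆
      (Late n t ×ˢ (Set.univ : Set (ℕ → S))) ∪ ((Set.univ : Set (ℕ → ℝ)) ×ˢ Miss mx y n x) := by
    intro c hc
    by_contra hcon
    simp only [Set.mem_union, Set.mem_prod, Set.mem_univ, and_true, true_and, not_or] at hcon
    obtain ⟨h3, h4⟩ := hcon
    apply hc
    simp only [Miss, Set.mem_ofPred_eq, not_forall, not_not] at h4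
    obtain ⟨k, hk, hy⟩ := h4
    refine ⟨k, ?_, hy⟩
    by_contra h5
    exact h3 ⟨k, hk, not_le.1 h5⟩
  calc plaw S {c | ¬ Hits mx t x c y}
      ≤ plaw S ((Late n t ×ˢ (Set.univ : Set (ℕ → S))) ∪
          ((Set.univ : Set (ℕ → ℝ)) ×ˢ Miss mx y n x)) := measure_mono hsub
    _ ≤ plaw S (Late n t ×ˢ (Set.univ : Set (ℕ → S))) +
          plaw S ((Set.univ : Set (ℕ → ℝ)) ×ˢ Miss mx y n x) := measure_union_le _ _
    _ = tlaw (Late n t) + mlaw S (Miss mx y n x) := by
        unfold plaw
        rw [Measure.prod_prod, Measure.prod_prod, measure_univ, measure_univ, mul_one, one_mul]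
    _ ≤ δ / 2 + δ / 2 := by
        refine add_le_add ((measure_mono (late_anti n ht)).trans ht0) ?_
        refine (miss_le mx y n x).trans ((ENNReal.ofReal_le_ofReal ?_).trans hεδ)
        linarith
    _ = δ := ENNReal.add_halves δ

end Pool.Agent.W2helper19.FD
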