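import Pool.Agent.W2helper75.FD.Stm

/-!
# Project FD, piece GRP: a finite index subgroup mapping onto `ℤ²` gives a covering of a
`ℤ²`-periodic walk.
-/

set_option autoImplicit false

open MeasureTheory ProbabilityTheory Filter Topology
open scoped ENNReal NNReal

namespace Pool.Agent.W2helper19.FD

open Pool.Agent.W2helper75.FD

lemma pth_congr {V S : Type} (mv : V → S → V) (x : V) {q q' : ℕ → S} (k : ℕ)
    (h : ∀ i < k, q i = q' i) : pth mv x q k = pth mv x q' k := by
  induction k with
  | zero => rfl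
  | succ k ih =>
    simp only [pth]
    rw [ih fun i hi => h i (by omega), h k (by omega)]

lemma reach_step {V S : Type} (mv : V → S → V) (x y : V)
    (h : ∃ (q : ℕ → S) (k : ℕ), pth mv x q k = y) (s : S) :
    ∃ (q : ℕ → S) (k : ℕ), pth mv x q k = mv y s := by
  obtain ⟨q, k, rfl⟩ := h
  refine ⟨Function.update q k s, k + 1, ?_⟩
  simp only [pth, Function.update_self]
  rw [pth_congr mv x (q := Function.update q k s) (q' := q) k]
  intro i hi
  rw [Function.update_of_ne (by omega)]

theorem grp : P_GRP := by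
  intro Γ _ H hH f hf S hS hcl
  classical
  -- the classes
  let J : Type := Quotient (QuotientGroup.rightRel H)
  have : Finite J :=
    Finite.of_equiv _ (QuotientGroup.quotientRightRelEquivQuotientLeftRel H).symm
  let _ : Fintype J := Fintype.ofFinite J
  let cl : Γ → J := fun g => Quotient.mk (QuotientGroup.rightRel H) g
  let τ : J → Γ := Quotient.out
  have hcl_iff : ∀ a b : Γ, cl a = cl b ↔ b * a⁻¹ ∈ H := by
    intro a b
    constructor
    · intro h
      have := Quotient.exact h
      exact QuotientGroup.rightRel_apply.1 this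
    · intro h
      exact Quotient.sound (QuotientGroup.rightRel_apply.2 h)
  have hτ : ∀ j, cl (τ j) = j := fun j => Quotient.out_eq j
  have hmem : ∀ g, g * (τ (cl g))⁻¹ ∈ H := by
    intro g
    exact (hcl_iff _ _).1 (hτ (cl g))
  let F : Γ → ℤ × ℤ := fun g => Multiplicative.toAdd (f ⟨g * (τ (cl g))⁻¹, hmem g⟩)
  have hFdef : ∀ g, F g = Multiplicative.toAdd (f ⟨g * (τ (cl g))⁻¹, hmem g⟩) := fun g => rfl
  -- adding on the left
  have hadd : ∀ (h : Γ) (hh : h ∈ H) (g : Γ),
      cl (h * g) = cl g ∧ F (h * g) = Multiplicative.toAdd (f ⟨h, hh⟩) + F g := by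
    intro h hh g
    have h1 : cl (h * g) = cl g := by
      rw [hcl_iff]
      have : g * (h * g)⁻¹ = h⁻¹ := by group
      rw [this]
      exact H.inv_mem hh
    refine ⟨h1, ?_⟩
    rw [hFdef, hFdef, ← toAdd_mul, ← map_mul]
    congr 2
    apply Subtype.ext
    simp only [Subgroup.coe_mul]
    rw [h1]
    group
  let n : J → S → J := fun j s => cl (τ j * s)
  let c : J → S → ℤ × ℤ := fun j s => F (τ j * s)
  let φ : Γ → (ℤ × ℤ) × J := fun g => (F g - F 1, cl g)
  have hstep : ∀ g (s : S), φ (g * s) = mvp n c (φ g) s := by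
    intro g s
    have h2 := hadd (g * (τ (cl g))⁻¹) (hmem g) (τ (cl g) * s)
    have h3 : g * (τ (cl g))⁻¹ * (τ (cl g) * s) = g * s := by group
    rw [h3] at h2
    show (F (g * s) - F 1, cl (g * s)) = ((F g - F 1) + F (τ (cl g) * s), cl (τ (cl g) * s))
    rw [h2.1, h2.2, ← hFdef]
    congr 1
    abel
  have hsurj : Function.Surjective φ := by
    rintro ⟨z, j⟩
    obtain ⟨h, hh⟩ := hf (Multiplicative.ofAdd (z + F 1 - F (τ j)))
    have h2 := hadd (h : Γ) h.2 (τ j)
    refine ⟨(h : Γ) * τ j, ?_⟩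
    show (F ((h : Γ) * τ j) - F 1, cl ((h : Γ) * τ j)) = (z, j)
    rw [h2.1, h2.2, hτ]
    have h4 : Multiplicative.toAdd (f ⟨(h : Γ), h.2⟩) = z + F 1 - F (τ j) := by
      have : (⟨(h : Γ), h.2⟩ : H) = h := rfl
      rw [this, hh]
      rfl
    rw [h4]
    congr 1
    abel
  have hSne : Nonempty S := by
    by_contra hne
    rw [not_nonempty_iff] at hne
    have hS0 : (S : Set Γ) = ∅ := by
      ext g
      simp only [Finset.mem_coe, Set.mem_empty_iff_false, iff_false]
      intro hg
      exact hne.elim ⟨g, hg⟩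
    rw [hS0, Subgroup.closure_empty] at hcl
    have h1 : ∀ g : Γ, g = 1 := by
      intro g
      have : g ∈ (⊤ : Subgroup Γ) := Subgroup.mem_top g
      rw [← hcl] at this
      exact Subgroup.mem_bot.1 this
    obtain ⟨a, ha⟩ := hf (Multiplicative.ofAdd (1, 0))
    have ha1 : a = 1 := Subtype.ext (h1 a)
    rw [ha1, map_one] at ha
    have h5 : ((0 : ℤ × ℤ)) = (1, 0) := Multiplicative.ofAdd.injective ha
    have h6 := congrArg Prod.fst h5
    simp at h6
  obtain ⟨s0⟩ := hSne
  refine ⟨J, inferInstance, n, c, φ, cl 1, ?_, hstep, ?_, fun s => ⟨(s : Γ)⁻¹, hS s s.2⟩, ?_, ?_⟩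
  · show (F 1 - F 1, cl 1) = (0, cl 1)
    rw [sub_self]
  · intro x y
    obtain ⟨g, rfl⟩ := hsurj x
    obtain ⟨g', rfl⟩ := hsurj y
    have key : ∀ l : List Γ, (∀ a ∈ l, a ∈ S) → ∀ u : Γ,
        (∃ (q : ℕ → S) (k : ℕ), pth (mvp n c) (φ g) q k = φ u) →
        ∃ (q : ℕ → S) (k : ℕ), pth (mvp n c) (φ g) q k = φ (u * l.prod) := by
      intro l
      induction l with
      | nil =>
        intro _ u h
        simpa using h
      | cons a l ih =>
        intro hl u h
        have ha : a ∈ S := hl a (by simp)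
        have h1 := reach_step _ _ _ h ⟨a, ha⟩
        rw [← hstep u ⟨a, ha⟩] at h1
        have h2 := ih (fun b hb => hl b (by simp [hb])) (u * a) h1
        rw [List.prod_cons, ← mul_assoc]
        exact h2
    have hg : g⁻¹ * g' ∈ Subgroup.closure (S : Set Γ) := by
      rw [hcl]
      exact Subgroup.mem_top _
    have hg2 : g⁻¹ * g' ∈ Submonoid.closure ((S : Set Γ) ∪ (S : Set Γ)⁻¹) := by
      rw [← Subgroup.closure_toSubmonoid]
      exact hg
    obtain ⟨l, hl, hprod⟩ := Submonoid.exists_list_of_mem_closure hg2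
    have h3 := key l (fun a ha => by
      rcases hl a ha with h | h
      · exact h
      · have := hS _ (Set.mem_inv.1 h)
        simpa using this) g ⟨fun _ => s0, 0, rfl⟩
    rw [hprod, mul_inv_cancel_left] at h3
    exact h3
  · intro s
    apply Subtype.ext
    simp
  · intro x s
    obtain ⟨g, rfl⟩ := hsurj x
    rw [← hstep g s]
    have := hstep (g * s) ⟨(s : Γ)⁻¹, hS s s.2⟩
    rw [← this]
    simp

end Pool.Agent.W2helper19.FD
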